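import Pool.Agent.Lib_MP_499141.Fold

/-!
# MP_499141_an: strongly irreducible SFTs that can be folded in all but two directions have dense
periodic points
-/

set_option autoImplicit false

namespace Pool.Agent.Results.MP_499141_an.Folding

open Pool.Agent.Lib_MP_499141

/-- Let `X` be a strongly irreducible SFT on `ℤ^d` and let `a`, `b` be two directions. If for every
other direction `i` there is a `c` such that filling the half space `u i < c / 2` with the mirror
image of the other half space maps `X` into `X`, then the periodic points of `X` are dense. -/
theorem result {d : ℕ} {A : Type} [Finite A] (E : Finset (Pt d)) (P : Set (E → A))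
    (hSI : StronglyIrreducible (sft E P)) (a b : Fin d)
    (hf : ∀ i : Fin d, i ≠ a → i ≠ b → Foldable (sft E P) i) :
    PeriodicDense (sft E P) :=
  dense_of_foldable hSI a b hf

end Pool.Agent.Results.MP_499141_an.Folding
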