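import Pool.Agent.Lib_MP_499141.Main
import Pool.Agent.Lib_MP_499141.Classes

/-!
# MP_499141_an: strongly irreducible SFTs pass consistency, BLP and AIP on the torus

Let `X` be a strongly irreducible SFT on `ℤ^d` with window `E` and set `P` of allowed patterns. The
points of `X` that have period `N` in all directions are the solutions of the instance with variables
`(ℤ/N)^d` and constraint `P` on every window. Part 1: this instance is `m`-consistent for all large
`N`. Part 2: for all multiples `N` of some `N₀` it has an `m`-consistent family in which every partial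
solution extends to a solution of the linear and the affine relaxation. Part 3: density of the
periodic points when `P` is solved by these relaxations. Parts 4 to 6: classes of such `P`.
-/

set_option autoImplicit false

namespace Pool.Agent.Results.MP_499141_an.Relaxations

open Pool.Agent.Lib_MP_499141

/-- See the header of the file. -/
theorem result {d : ℕ} {A : Type} [Fintype A] [DecidableEq A] (E : Finset (Pt d))
    (P : Set (E → A)) (hSI : StronglyIrreducible (sft E P)) :
    ((sft E P).Nonempty → ∀ m : ℕ, ∃ N₀ : ℕ, ∀ N : ℕ, N₀ ≤ N →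
      ∃ H : Finset (Tor d N) → (Tor d N → A) → Prop, ConsistentFamily P (scopes E N) m H) ∧
    ((sft E P).Nonempty → ∀ m : ℕ, ∃ N₀ : ℕ, 0 < N₀ ∧ ∀ N : ℕ, 0 < N → N₀ ∣ N →
      ∃ H : Finset (Tor d N) → (Tor d N → A) → Prop, ConsistentFamily P (scopes E N) m H ∧
        ∀ (S : Finset (Tor d N)) (s : Tor d N → A), S.card ≤ m → H S s →
          Extends P (scopes E N) m H S s) ∧
    (SolvedByRelaxation P → PeriodicDense (sft E P)) ∧
    (BoundedWidth P → SolvedByRelaxation P) ∧
    (∀ [AddCommGroup A], (∀ x ∈ P, ∀ y ∈ P, ∀ z ∈ P, x - y + z ∈ P) → SolvedByRelaxation P) ∧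
    (∀ [SemilatticeInf A], (∀ x ∈ P, ∀ y ∈ P, x ⊓ y ∈ P) → BoundedWidth P) := by
  refine ⟨fun hne m => ?_, fun hne m => relaxation_torus hSI hne m, dense_of_solved hSI, ?_,
    fun h => solved_of_affine h, fun h => boundedWidth_of_semilattice h⟩
  · obtain ⟨R, hR0, hR⟩ := hSI
    obtain ⟨K, hK⟩ := exists_bound E
    obtain ⟨N₀, hN₀⟩ := exists_nat_gt (max (2 * (m * R)) (2 * K))
    refine ⟨N₀, fun N hN => ?_⟩
    have hNR : (N₀ : ℝ) ≤ N := by exact_mod_cast hN
    have hN1 : 2 * K < N := by
      have := ((le_max_right (2 * (m * R)) (2 * (K : ℝ))).trans_lt hN₀).trans_le hNR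
      exact_mod_cast this
    have hN2 : 2 * (m * R) < N := ((le_max_left _ _).trans_lt hN₀).trans_le hNR
    exact ⟨_, consistent_torus hR0 hR hne hK m hN1 hN2⟩
  · rintro ⟨m, hm⟩
    refine ⟨m, fun V _ _ C h => ?_⟩
    obtain ⟨H, hH, _⟩ := h
    exact hm V C ⟨H, hH⟩

end Pool.Agent.Results.MP_499141_an.Relaxations
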